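import Pool.Agent.Helper64.DT.Stmts

set_option autoImplicit false

namespace Pool.Agent.Helper64.DT

open Pool.Agent.Helper64.CT
open Pool.Agent.Helper64.HG (Ovl Model Circ IC HellyCircle ChordModel)

theorem cfm_mon {V : Type} {G : SimpleGraph V} {l r : V → ℝ} (h : Model G l r) :
    MOn G Set.univ l r where
  lt := fun v _ => h.lt v
  injl := fun _ _ _ _ e => h.injl e
  injr := fun _ _ _ _ e => h.injr e
  ne := fun u _ v _ => h.ne u v
  adj := fun u _ v _ => h.adj u v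

/-- vertices of different components are far from each other -/
theorem cfm_far {V : Type} {G : SimpleGraph V} {y p q v x : V} (h : ¬ Comp G y p q)
    (hv : Comp G y p v) (hx : Comp G y q x) : x ∈ Far G v := by
  refine ⟨fun e => h ?_, fun ha => h ?_⟩
  · rw [e] at hx
    exact hv.trans hx.symm
  · exact (hv.step hx.right ha).trans hx.symm

/-- a vertex of another component does not separate two vertices of a component -/
theorem cfm_same {V : Type} {G : SimpleGraph V} {l r : V → ℝ}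
    (hsd : ∀ b x y, x ∈ Far G b → y ∈ Far G b → G.Adj x y → (Ins l r b x ↔ Ins l r b y))
    {y p q v x x' : V} (h : ¬ Comp G y p q) (hv : Comp G y p v) (hx : Comp G y q x)
    (hx' : Comp G y q x') : (Ins l r v x ↔ Ins l r v x') := by
  refine (hx.symm.trans hx').ind (fun z => (Ins l r v x ↔ Ins l r v z)) Iff.rfl ?_
  intro z w hz hP hw hzw
  have hz' : Comp G y q z := hx.trans hz
  exact hP.trans (hsd v z w (cfm_far h hv hz') (cfm_far h hv (hz'.step hw hzw)) hzw)

/-- a separating vertex is adjacent to all attachments -/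
theorem cfm_adj {V : Type} {G : SimpleGraph V} {l r : V → ℝ}
    (hsd : ∀ b x y, x ∈ Far G b → y ∈ Far G b → G.Adj x y → (Ins l r b x ↔ Ins l r b y))
    {y p q v x : V} (h : ¬ Comp G y p q) (hv : Comp G y p v) (hx : Comp G y q x)
    (hs : ¬ (Ins l r v y ↔ Ins l r v x)) {m : V} (hm : m ∈ Att G y q) : G.Adj v m := by
  obtain ⟨hym, w', hw', hmw⟩ := hm
  by_contra hvm
  have hvy : v ∈ Far G y := hv.right
  have hmv : m ∈ Far G v := by
    refine ⟨fun e => hvy.2 ?_, hvm⟩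
    rw [← e]
    exact hym
  have h1 : (Ins l r v m ↔ Ins l r v y) := hsd v m y hmv (Far.symm hvy) hym.symm
  have h2 : (Ins l r v m ↔ Ins l r v w') := hsd v m w' hmv (cfm_far h hv hw') hmw
  have h3 : (Ins l r v w' ↔ Ins l r v x) := cfm_same hsd h hv hw' hx
  exact hs ((h1.symm.trans h2).trans h3)

theorem st_CFM (hSD1 : Pool.Agent.Helper64.CT.ST_SD1) (hSD2 : Pool.Agent.Helper64.CT.ST_SD2)
    (hGEX : Pool.Agent.Helper64.CT.ST_GEX) (hGE2 : ST_GE2) : ST_CFM := by
  intro V G l r hM y u w hC hs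
  have mo : MOn G Set.univ l r := cfm_mon hM
  have hsd : ∀ b x y, x ∈ Far G b → y ∈ Far G b → G.Adj x y →
      (Ins l r b x ↔ Ins l r b y) :=
    fun b x y h1 h2 h3 => hSD1 V G Set.univ l r mo b trivial x trivial y trivial h1 h2 h3
  have hsd2 : ∀ b x y, Comp G b x y → (Ins l r b x ↔ Ins l r b y) := hSD2 V G l r hM
  obtain ⟨hnc, ⟨u1, hu1, ⟨m, hm, hu1m⟩, ⟨m', hm', hu1m'⟩⟩, w1, hw1, ⟨n, hn, hw1n⟩,
    ⟨n', hn', hw1n'⟩⟩ := hC
  have hnc' : ¬ Comp G y w u := fun h => hnc h.symm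
  have hside : ∀ a b, Comp G y u a → Comp G y w b → (Ins l r y a ↔ Ins l r y b) :=
    fun a b ha hb => ((hsd2 y u a ha).symm.trans hs).trans (hsd2 y w b hb)
  obtain ⟨hyn, u2, hu2, hnu2⟩ := id hn
  obtain ⟨hym, w2, hw2, hmw2⟩ := id hm
  -- the neighbour `n`
  have k1 : ¬ (Ins l r u2 y ↔ Ins l r u2 w1) := by
    have hfar : w1 ∈ Far G u2 := cfm_far hnc hu2 hw1
    have hg := hGEX V G Set.univ l r mo n trivial y trivial u2 trivial w1 trivial hyn.symm hnu2
      hw1n.symm (fun e => hu2.right.1 e.symm) (fun e => hw1.right.1 e.symm)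
      (fun e => hfar.1 e.symm) hu2.right.2 hw1.right.2 hfar.2
    rcases hg with ⟨g1, _, _⟩ | ⟨_, g2, _⟩ | ⟨_, _, g3⟩
    · exact absurd (cfm_adj hsd hnc' hw1 hu2 g1 hn') hw1n'
    · exact absurd (hside u2 w1 hu2 hw1) g2
    · exact g3
  -- the neighbour `m`
  have k2 : ¬ (Ins l r w2 y ↔ Ins l r w2 u1) := by
    have hfar : u1 ∈ Far G w2 := cfm_far hnc' hw2 hu1
    have hg := hGEX V G Set.univ l r mo m trivial y trivial w2 trivial u1 trivial hym.symm hmw2
      hu1m.symm (fun e => hw2.right.1 e.symm) (fun e => hu1.right.1 e.symm)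
      (fun e => hfar.1 e.symm) hw2.right.2 hu1.right.2 hfar.2
    rcases hg with ⟨g1, _, _⟩ | ⟨_, g2, _⟩ | ⟨_, _, g3⟩
    · exact absurd (cfm_adj hsd hnc hu1 hw2 g1 hm') hu1m'
    · exact absurd (hside u1 w2 hu1 hw2).symm g2
    · exact g3
  have k3 : ¬ (Ins l r u2 y ↔ Ins l r u2 w2) := fun h =>
    k1 (h.trans (cfm_same hsd hnc hu2 hw2 hw1))
  have k4 : ¬ (Ins l r w2 y ↔ Ins l r w2 u2) := fun h =>
    k2 (h.trans (cfm_same hsd hnc' hw2 hu2 hu1))
  exact hGE2 V G Set.univ l r mo y trivial u2 trivial w2 trivial (Far.symm hu2.right)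
    (Far.symm hw2.right) (cfm_far hnc' hw2 hu2) ⟨k3, k4⟩

end Pool.Agent.Helper64.DT
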